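import Mathlib

/-!
# Collinear points on graphs of sequences: the threshold `n log n`

If `a (x + w) - a x ≤ w log w / (300 k ^ 2)` for one window of length `w ≥ w₀(k)`, then the graph
of the strictly increasing integer sequence `a` contains `k` collinear points. In particular this
holds if `liminf a_n / (n log n) < 1 / (300 k ^ 2)`.
-/

set_option autoImplicit false

namespace Pool.Agent.Results.MP_029ce3_co.LogThreshold

/-- `k` distinct points `(n, a n)`, `n ≥ 1`, lie on one line of `ℝ²`. -/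
def HasCollinear (a : ℕ → ℕ) (k : ℕ) : Prop :=
  ∃ s : Finset ℕ, s.card = k ∧ (∀ n ∈ s, 1 ≤ n) ∧
    Collinear ℝ {P : ℝ × ℝ | ∃ n ∈ s, P = ((n : ℝ), (a n : ℝ))}

/-- a long flat piece of the graph contains `k` collinear points -/
theorem flat (a : ℕ → ℕ) (k : ℕ) (hk : 1 ≤ k) (x w : ℕ) (hx : 1 ≤ x) (hw : 4 * k ≤ w) (σ τ : ℝ)
    (h : ∀ t : ℕ, x ≤ t → t ≤ x + w → |(a t : ℝ) - (σ * t + τ)| ≤ (w : ℝ) / (32 * (k : ℝ) ^ 2)) :
    HasCollinear a k := by
  have hkR : (1 : ℝ) ≤ k := by exact_mod_cast hk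
  have hk0 : (0 : ℝ) < k := by linarith
  have hwR : 4 * (k : ℝ) ≤ w := by exact_mod_cast hw
  obtain ⟨r, hr1, hr2⟩ := Real.exists_rat_abs_sub_le_and_den_le σ (n := 4 * k - 1) (by omega)
  have hcast : (((4 * k - 1 : ℕ) : ℝ) + 1) = 4 * k := by
    rw [Nat.cast_sub (by omega)]; push_cast; ring
  rw [hcast] at hr1
  have hq0 : (0 : ℝ) < r.den := by exact_mod_cast r.den_pos
  have hqk : (r.den : ℝ) ≤ 4 * k := by
    have h1 : (r.den : ℝ) ≤ ((4 * k : ℕ) : ℝ) := by exact_mod_cast (by omega : r.den ≤ 4 * k)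
    push_cast at h1
    exact h1
  have hrr : (r : ℝ) = (r.num : ℝ) / (r.den : ℝ) := by
    exact_mod_cast (Rat.num_div_den r).symm
  have hpq : |(r.den : ℝ) * σ - r.num| ≤ 1 / (4 * k) := by
    have h1 : (r.den : ℝ) * σ - r.num = r.den * (σ - r) := by
      rw [hrr]; field_simp
    rw [h1, abs_mul, abs_of_pos hq0]
    calc (r.den : ℝ) * |σ - r| ≤ r.den * (1 / (4 * k * r.den)) :=
          mul_le_mul_of_nonneg_left hr1 hq0.le
      _ = 1 / (4 * k) := by field_simp
  -- the integer valued linear form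
  let g : ℕ → ℤ := fun t => (r.den : ℤ) * (a t : ℤ) - r.num * (t : ℤ)
  set c0 : ℝ := r.den * τ + (r.den * σ - r.num) * (x + w / 2) with hc0
  have hg : ∀ t : ℕ, x ≤ t → t ≤ x + w → |((g t : ℤ) : ℝ) - c0| ≤ w / (4 * k) := by
    intro t h1 h2
    have h1R : (x : ℝ) ≤ t := by exact_mod_cast h1
    have h2R : (t : ℝ) ≤ x + w := by exact_mod_cast h2
    have e : ((g t : ℤ) : ℝ) - c0 = r.den * ((a t : ℝ) - (σ * t + τ)) +
        (r.den * σ - r.num) * (t - x - w / 2) := by
      rw [hc0]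
      simp only [g]
      push_cast
      ring
    rw [e]
    have h3 : |(r.den : ℝ) * ((a t : ℝ) - (σ * t + τ))| ≤ w / (8 * k) := by
      rw [abs_mul, abs_of_pos hq0]
      calc (r.den : ℝ) * |(a t : ℝ) - (σ * t + τ)| ≤ (4 * k) * ((w : ℝ) / (32 * (k : ℝ) ^ 2)) :=
            mul_le_mul hqk (h t h1 h2) (abs_nonneg _) (by linarith)
        _ = w / (8 * k) := by field_simp; ring
    have h4 : |(r.den * σ - r.num) * ((t : ℝ) - x - w / 2)| ≤ w / (8 * k) := by
      rw [abs_mul]
      calc |(r.den : ℝ) * σ - r.num| * |(t : ℝ) - x - w / 2| ≤ 1 / (4 * k) * (w / 2) := by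
            apply mul_le_mul hpq _ (abs_nonneg _) (by positivity)
            rw [abs_le]
            constructor <;> linarith
        _ = w / (8 * k) := by field_simp; ring
    calc |(r.den : ℝ) * ((a t : ℝ) - (σ * t + τ)) + (r.den * σ - r.num) * (t - x - w / 2)| ≤ _ :=
          abs_add_le _ _
      _ ≤ w / (8 * k) + w / (8 * k) := add_le_add h3 h4
      _ = w / (4 * k) := by field_simp; ring
  -- the pigeonhole principle
  set lo : ℤ := ⌈c0 - w / (4 * k)⌉ with hlo
  set hi : ℤ := ⌊c0 + w / (4 * k)⌋ with hhi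
  have hmaps : ∀ t ∈ Finset.Icc x (x + w), g t ∈ Finset.Icc lo hi := by
    intro t ht
    rw [Finset.mem_Icc] at ht
    have h1 := abs_le.mp (hg t ht.1 ht.2)
    rw [Finset.mem_Icc]
    refine ⟨Int.ceil_le.mpr (by linarith), Int.le_floor.mpr (by linarith)⟩
  have hcard : ((Finset.Icc lo hi).card : ℝ) ≤ w / (2 * k) + 1 := by
    rw [Int.card_Icc]
    have h1 : (hi : ℝ) ≤ c0 + w / (4 * k) := Int.floor_le _
    have h2 : c0 - w / (4 * k) ≤ (lo : ℝ) := Int.le_ceil _
    have h3 : (0 : ℝ) ≤ w / (2 * k) := by positivity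
    have h4 : (w : ℝ) / (2 * k) = w / (4 * k) + w / (4 * k) := by field_simp; ring
    rcases le_or_gt 0 (hi + 1 - lo) with h5 | h5
    · have h6 : (((hi + 1 - lo).toNat : ℕ) : ℝ) = (hi : ℝ) + 1 - lo := by
        have h7 : (((hi + 1 - lo).toNat : ℕ) : ℤ) = hi + 1 - lo := Int.toNat_of_nonneg h5
        exact_mod_cast congrArg (Int.cast : ℤ → ℝ) h7
      rw [h6]
      linarith
    · rw [Int.toNat_of_nonpos h5.le]
      push_cast
      linarith
  have hlt : (Finset.Icc lo hi).card * (k - 1) < (Finset.Icc x (x + w)).card := by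
    rw [Nat.card_Icc]
    have h1 : (((Finset.Icc lo hi).card * (k - 1) : ℕ) : ℝ) < ((x + w + 1 - x : ℕ) : ℝ) := by
      rw [show x + w + 1 - x = w + 1 by omega]
      push_cast [Nat.cast_sub hk]
      calc ((Finset.Icc lo hi).card : ℝ) * (k - 1) ≤ (w / (2 * k) + 1) * (k - 1) :=
            mul_le_mul_of_nonneg_right hcard (by linarith)
        _ ≤ (w / (2 * k) + 1) * k := by
            apply mul_le_mul_of_nonneg_left (by linarith)
            positivity
        _ = w / 2 + k := by field_simp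
        _ < w + 1 := by linarith
    exact_mod_cast h1
  obtain ⟨y, -, hy⟩ := Finset.exists_lt_card_fiber_of_mul_lt_card_of_maps_to hmaps hlt
  obtain ⟨s, hs, hsk⟩ := Finset.exists_subset_card_eq (by omega :
    k ≤ ((Finset.Icc x (x + w)).filter (fun t => g t = y)).card)
  refine ⟨s, hsk, ?_, ?_⟩
  · intro n hn
    have := Finset.mem_Icc.mp (Finset.mem_filter.mp (hs hn)).1
    omega
  · rw [collinear_iff_exists_forall_eq_smul_vadd]
    refine ⟨(0, (y : ℝ) / r.den), (1, (r.num : ℝ) / r.den), ?_⟩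
    rintro P ⟨n, hn, rfl⟩
    refine ⟨n, ?_⟩
    have h1 : (r.den : ℤ) * (a n : ℤ) - r.num * (n : ℤ) = y := (Finset.mem_filter.mp (hs hn)).2
    have h2 : (r.den : ℝ) * (a n : ℝ) - r.num * (n : ℝ) = y := by exact_mod_cast h1
    apply Prod.ext
    · simp
    · simp only [vadd_eq_add, Prod.smul_mk, Prod.mk_add_mk, smul_eq_mul]
      field_simp
      linarith

/-- without `k` collinear points the average gap in a window of length `w` is at least
`c log w` -/
theorem lower (a : ℕ → ℕ) (ha : ∀ m n, 1 ≤ m → m < n → a m < a n) (k : ℕ) (hk : 1 ≤ k)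
    (hno : ¬ HasCollinear a k) (j : ℕ) : ∀ x w : ℕ, 1 ≤ x → 8 ^ j * (16 * k) ≤ w →
    (j : ℝ) * w / (64 * (k : ℝ) ^ 2) ≤ (a (x + w) : ℝ) - a x := by
  have hkR : (1 : ℝ) ≤ k := by exact_mod_cast hk
  have hk0 : (0 : ℝ) < k := by linarith
  induction j with
  | zero =>
    intro x w hx hw
    have hw0 : 0 < w := lt_of_lt_of_le (by omega) hw
    have h1 : (a x : ℝ) ≤ a (x + w) := by exact_mod_cast (ha x (x + w) hx (by omega)).le
    simp only [Nat.cast_zero, zero_mul, zero_div]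
    linarith
  | succ j ih =>
    intro x w hx hw
    by_contra hcon
    push Not at hcon
    apply hno
    have hpow : 1 ≤ 8 ^ j := Nat.one_le_pow _ _ (by norm_num)
    rw [pow_succ] at hw
    have hw16 : 16 * k ≤ 8 ^ j * (16 * k) := Nat.le_mul_of_pos_left _ hpow
    have hwbig : 8 * (8 ^ j * (16 * k)) ≤ w := by
      calc 8 * (8 ^ j * (16 * k)) = 8 ^ j * 8 * (16 * k) := by ring
        _ ≤ w := hw
    set B : ℕ := 8 ^ j * (16 * k) with hB
    set v : ℕ := w / 4 with hv
    have hvB : B ≤ v := by omega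
    have hw0 : (0 : ℝ) < w := by exact_mod_cast (by omega : 0 < w)
    set δ : ℝ := 1 / (64 * (k : ℝ) ^ 2) with hδ
    have hδ0 : 0 < δ := by rw [hδ]; positivity
    set σ : ℝ := ((a (x + w) : ℝ) - a x) / w with hσ
    have hσw : (a (x + w) : ℝ) - a x = σ * w := by rw [hσ]; field_simp
    have hσj : σ - δ ≤ j * δ := by
      have h1 : σ * w < (j + 1) * δ * w := by
        rw [← hσw]
        calc (a (x + w) : ℝ) - a x < ((j + 1 : ℕ) : ℝ) * w / (64 * (k : ℝ) ^ 2) := hcon
          _ = (j + 1) * δ * w := by rw [hδ]; push_cast; field_simp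
      have h2 := lt_of_mul_lt_mul_right h1 hw0.le
      linarith
    have hsub : ∀ y z : ℕ, x ≤ y → y + v ≤ z → ((a z : ℝ) - a y) ≥ (σ - δ) * ((z : ℝ) - y) := by
      intro y z hy hz
      have h1 := ih y (z - y) (by omega) (by omega)
      rw [show y + (z - y) = z by omega, Nat.cast_sub (by omega)] at h1
      have h2 : (0 : ℝ) ≤ (z : ℝ) - y := by
        have : (y : ℝ) ≤ z := by exact_mod_cast (by omega : y ≤ z)
        linarith
      have h3 : (j : ℝ) * ((z : ℝ) - y) / (64 * (k : ℝ) ^ 2) = j * δ * ((z : ℝ) - y) := by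
        rw [hδ]; field_simp
      rw [h3] at h1
      have h4 := mul_le_mul_of_nonneg_right hσj h2
      linarith
    apply flat a k hk (x + v) (w - 2 * v) (by omega) (by omega) σ ((a x : ℝ) - σ * x)
    intro t ht1 ht2
    have hbd : δ * w ≤ ((w - 2 * v : ℕ) : ℝ) / (32 * (k : ℝ) ^ 2) := by
      have h1 : (w : ℝ) ≤ 2 * ((w - 2 * v : ℕ) : ℝ) := by
        exact_mod_cast (by omega : w ≤ 2 * (w - 2 * v))
      rw [hδ, le_div_iff₀ (by positivity)]
      have h2 : 1 / (64 * (k : ℝ) ^ 2) * w * (32 * (k : ℝ) ^ 2) = w / 2 := by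
        field_simp; norm_num
      rw [h2]
      linarith
    refine le_trans ?_ hbd
    have h1 := hsub x t le_rfl (by omega)
    have h2 := hsub t (x + w) (by omega) (by omega)
    push_cast at h2
    have ht1' : (x : ℝ) ≤ t := by exact_mod_cast (by omega : x ≤ t)
    have ht2' : (t : ℝ) ≤ x + w := by exact_mod_cast (by omega : t ≤ x + w)
    rw [abs_le]
    constructor
    · have h3 : δ * ((t : ℝ) - x) ≤ δ * w := mul_le_mul_of_nonneg_left (by linarith) hδ0.le
      nlinarith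
    · have h3 : δ * ((x : ℝ) + w - t) ≤ δ * w := mul_le_mul_of_nonneg_left (by linarith) hδ0.le
      nlinarith

/-- the final numerical estimate -/
theorem window (a : ℕ → ℕ) (ha : ∀ m n, 1 ≤ m → m < n → a m < a n) (k : ℕ) (hk : 1 ≤ k)
    (x w : ℕ) (hx : 1 ≤ x) (hw1 : (16 * k + 1) ^ 4 ≤ w) (hw2 : (12 : ℝ) ≤ Real.log w)
    (h : (a (x + w) : ℝ) - a x < w * Real.log w / (256 * (k : ℝ) ^ 2)) : HasCollinear a k := by
  by_contra hno
  have hkR : (1 : ℝ) ≤ k := by exact_mod_cast hk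
  have hk0 : (0 : ℝ) < k := by linarith
  have hwpos : 0 < w := lt_of_lt_of_le (by positivity) hw1
  have hwR : (0 : ℝ) < w := by exact_mod_cast hwpos
  set j : ℕ := ⌊Real.log w / 3⌋₊ with hj
  have hj1 : (j : ℝ) ≤ Real.log w / 3 := Nat.floor_le (by positivity)
  have hj2 : Real.log w / 3 < j + 1 := Nat.lt_floor_add_one _
  have hpow : 8 ^ j * (16 * k) ≤ w := by
    set y : ℝ := Real.exp (Real.log w / 4) with hy
    have hy4 : y ^ 4 = w := by
      rw [hy, ← Real.exp_nat_mul]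
      rw [show ((4 : ℕ) : ℝ) * (Real.log w / 4) = Real.log w by push_cast; ring, Real.exp_log hwR]
    have hy0 : 0 < y := Real.exp_pos _
    have hyk : 16 * (k : ℝ) + 1 ≤ y := by
      by_contra hlt
      push Not at hlt
      have h1 : y ^ 4 < (16 * (k : ℝ) + 1) ^ 4 := pow_lt_pow_left₀ hlt hy0.le (by norm_num)
      have h2 : (16 * (k : ℝ) + 1) ^ 4 ≤ w := by exact_mod_cast hw1
      linarith
    have h8 : (8 : ℝ) ^ j ≤ y ^ 3 := by
      have h1 : (8 : ℝ) ^ j = Real.exp (j * Real.log 8) := by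
        rw [Real.exp_nat_mul, Real.exp_log (by norm_num)]
      have h2 : y ^ 3 = Real.exp (3 * Real.log w / 4) := by
        rw [hy, ← Real.exp_nat_mul]
        congr 1
        push_cast
        ring
      rw [h1, h2, Real.exp_le_exp]
      have h3 : Real.log 8 ≤ 9 / 4 := by
        rw [show (8 : ℝ) = 2 ^ 3 by norm_num, Real.log_pow]
        have := Real.log_two_lt_d9
        push_cast
        linarith
      have h4 : 0 ≤ Real.log 8 := Real.log_nonneg (by norm_num)
      calc (j : ℝ) * Real.log 8 ≤ Real.log w / 3 * Real.log 8 :=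
            mul_le_mul_of_nonneg_right hj1 h4
        _ ≤ Real.log w / 3 * (9 / 4) := mul_le_mul_of_nonneg_left h3 (by linarith)
        _ = 3 * Real.log w / 4 := by ring
    have h5 : (((8 ^ j * (16 * k) : ℕ)) : ℝ) ≤ (w : ℝ) := by
      push_cast
      calc (8 : ℝ) ^ j * (16 * k) ≤ y ^ 3 * y := by
            apply mul_le_mul h8 (by linarith) (by positivity) (by positivity)
        _ = w := by rw [← hy4]; ring
    exact_mod_cast h5
  have h1 := lower a ha k hk hno j x w hx hpow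
  have h2 : (j : ℝ) * w / (64 * (k : ℝ) ^ 2) < w * Real.log w / (256 * (k : ℝ) ^ 2) :=
    lt_of_le_of_lt h1 h
  rw [div_lt_div_iff₀ (by positivity) (by positivity)] at h2
  have h3 : 4 * (j : ℝ) < Real.log w := by
    have h4 : (4 * (j : ℝ)) * (64 * (k : ℝ) ^ 2 * w) < Real.log w * (64 * (k : ℝ) ^ 2 * w) := by
      nlinarith
    exact lt_of_mul_lt_mul_right h4 (by positivity)
  linarith

/-- For every `k` there are explicit thresholds: (1) a strictly increasing sequence with one window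
`[x, x + w]`, `w` large, and `a (x + w) - a x < w log w / (256 k ^ 2)` has `k` collinear points;
(2) so has every strictly increasing sequence with `a n ≤ n log n / (300 k ^ 2)` for infinitely
many `n`. -/
theorem result (k : ℕ) (hk : 1 ≤ k) (a : ℕ → ℕ) (ha : ∀ m n, 1 ≤ m → m < n → a m < a n) :
    (∀ x w : ℕ, 1 ≤ x → (16 * k + 1) ^ 4 ≤ w → (12 : ℝ) ≤ Real.log w →
      (a (x + w) : ℝ) - a x < w * Real.log w / (256 * (k : ℝ) ^ 2) → HasCollinear a k) ∧
    ((∃ᶠ n : ℕ in Filter.atTop, (a n : ℝ) ≤ n * Real.log n / (300 * (k : ℝ) ^ 2)) →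
      HasCollinear a k) := by
  refine ⟨fun x w hx h1 h2 h3 => window a ha k hk x w hx h1 h2 h3, ?_⟩
  intro hfr
  have hkR : (1 : ℝ) ≤ k := by exact_mod_cast hk
  have hk0 : (0 : ℝ) < k := by linarith
  -- a large n
  obtain ⟨n, hn, hn1, hn2, hn3⟩ : ∃ n : ℕ, (a n : ℝ) ≤ n * Real.log n / (300 * (k : ℝ) ^ 2) ∧
      (16 * k + 1) ^ 4 + 1 ≤ n ∧ 100 ≤ n ∧ (13 : ℝ) ≤ Real.log n := by
    have h1 : ∀ᶠ n : ℕ in Filter.atTop, (16 * k + 1) ^ 4 + 1 ≤ n := Filter.eventually_ge_atTop _
    have h2 : ∀ᶠ n : ℕ in Filter.atTop, 100 ≤ n := Filter.eventually_ge_atTop _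
    have h3 : ∀ᶠ n : ℕ in Filter.atTop, (13 : ℝ) ≤ Real.log n :=
      (Real.tendsto_log_atTop.comp tendsto_natCast_atTop_atTop).eventually_ge_atTop 13
    exact (hfr.and_eventually (h1.and (h2.and h3))).exists
  have hnR : (100 : ℝ) ≤ n := by exact_mod_cast hn2
  have hcast : ((n - 1 : ℕ) : ℝ) = (n : ℝ) - 1 := by
    rw [Nat.cast_sub (by omega)]; push_cast; ring
  -- log (n - 1) ≥ log n - 1 / 50
  have hlog : Real.log n - 1 / 50 ≤ Real.log ((n : ℝ) - 1) := by
    have h1 : Real.log ((n : ℝ) / (n - 1)) ≤ (n : ℝ) / (n - 1) - 1 :=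
      Real.log_le_sub_one_of_pos (by apply div_pos <;> linarith)
    rw [Real.log_div (by linarith) (by linarith)] at h1
    have h2 : (n : ℝ) / (n - 1) - 1 = 1 / (n - 1) := by
      have hne : (n : ℝ) - 1 ≠ 0 := by
        intro h0
        linarith
      rw [div_sub_one hne, sub_sub_cancel]
    have h3 : (1 : ℝ) / (n - 1) ≤ 1 / 50 := by
      apply one_div_le_one_div_of_le <;> linarith
    linarith
  have hlog0 : 0 < Real.log n := by linarith
  apply window a ha k hk 1 (n - 1) le_rfl (by omega) (by rw [hcast]; linarith)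
  rw [show 1 + (n - 1) = n by omega, hcast]
  have ha1 : (0 : ℝ) ≤ a 1 := Nat.cast_nonneg _
  have h4 : (n : ℝ) * Real.log n / (300 * (k : ℝ) ^ 2) <
      ((n : ℝ) - 1) * Real.log ((n : ℝ) - 1) / (256 * (k : ℝ) ^ 2) := by
    rw [div_lt_div_iff₀ (by positivity) (by positivity)]
    have h5 : (n : ℝ) * Real.log n * 256 < ((n : ℝ) - 1) * Real.log ((n : ℝ) - 1) * 300 := by
      have h6 : (99 / 100) * (n : ℝ) ≤ (n : ℝ) - 1 := by linarith
      have h7 : (99 / 100) * Real.log n ≤ Real.log ((n : ℝ) - 1) := by linarith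
      have h8 : (99 / 100) * (n : ℝ) * ((99 / 100) * Real.log n) ≤
          ((n : ℝ) - 1) * Real.log ((n : ℝ) - 1) :=
        mul_le_mul h6 h7 (by positivity) (by linarith)
      have h9 : 0 < (n : ℝ) * Real.log n := by positivity
      nlinarith
    have h10 : 0 < (k : ℝ) ^ 2 := by positivity
    nlinarith
  linarith

end Pool.Agent.Results.MP_029ce3_co.LogThreshold
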